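import Pool.Agent.Lib.MP_5f3851_al.Main

/-! The reduced cohomology ring of the Frobenius kernel `B_r` of the Borel subgroup of `SL₃` is not
Cohen-Macaulay for `p ≥ 5`, `r ≥ 4`. -/

namespace Pool.Agent.Results.MP_5f3851_al.BorelSL3NotCM

open Pool.Agent.Lib.MP_5f3851_al

universe u

theorem result (k : Type u) [Field k] (p r : ℕ) [CharP k p] (hp : 5 ≤ p) (hr : 4 ≤ r) :
    ReducedNotCM (H (borel k p r)) :=
  main k p r hp hr

end Pool.Agent.Results.MP_5f3851_al.BorelSL3NotCM
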